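import Pool.Agent.Y272.GA.Frt

/-!
# Closedness of the set of the non-escaping polynomials near a unicritical one
-/

set_option autoImplicit false

open Set Filter Metric Topology

namespace Pool.Agent.Y574.GA

open Pool.Agent.Y272.GA

variable {d : ℕ}

theorem norm_pows_of_one_le (v : Fin (d + 1) → ℂ) {z : ℂ} (hz : 1 ≤ ‖z‖) {ρ : ℝ} (hv : ‖v‖ ≤ ρ) :
    ‖∑ i : Fin (d + 1), v i * z ^ (i : ℕ)‖ ≤ (d + 1) * ρ * ‖z‖ ^ d := by
  calc ‖∑ i : Fin (d + 1), v i * z ^ (i : ℕ)‖ ≤ ∑ i : Fin (d + 1), ‖v i * z ^ (i : ℕ)‖ :=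
        norm_sum_le _ _
    _ ≤ ∑ _i : Fin (d + 1), ρ * ‖z‖ ^ d := by
        refine Finset.sum_le_sum fun i _ => ?_
        rw [norm_mul, norm_pow]
        exact mul_le_mul ((norm_le_pi_norm v i).trans hv)
          (pow_le_pow_right₀ hz (by omega)) (by positivity) ((norm_nonneg v).trans hv)
    _ = (d + 1) * ρ * ‖z‖ ^ d := by
        rw [Finset.sum_const, Finset.card_univ, Fintype.card_fin, nsmul_eq_mul]
        push_cast
        ring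

theorem norm_dpows_of_one_le (v : Fin (d + 1) → ℂ) {z : ℂ} (hz : 1 ≤ ‖z‖) {ρ : ℝ}
    (hv : ‖v‖ ≤ ρ) :
    ‖∑ i : Fin (d + 1), v i * (((i : ℕ) : ℂ) * z ^ ((i : ℕ) - 1))‖ ≤
      (d + 1) * ρ * (d * ‖z‖ ^ (d - 1)) := by
  have hρ : 0 ≤ ρ := (norm_nonneg v).trans hv
  calc ‖∑ i : Fin (d + 1), v i * (((i : ℕ) : ℂ) * z ^ ((i : ℕ) - 1))‖ ≤
        ∑ i : Fin (d + 1), ‖v i * (((i : ℕ) : ℂ) * z ^ ((i : ℕ) - 1))‖ := norm_sum_le _ _
    _ ≤ ∑ _i : Fin (d + 1), ρ * (d * ‖z‖ ^ (d - 1)) := by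
        refine Finset.sum_le_sum fun i _ => ?_
        rw [norm_mul, norm_mul, norm_pow, Complex.norm_natCast]
        have hi : ((i : ℕ) : ℝ) ≤ d := by exact_mod_cast (by omega : (i : ℕ) ≤ d)
        have h1 : ‖z‖ ^ ((i : ℕ) - 1) ≤ ‖z‖ ^ (d - 1) := pow_le_pow_right₀ hz (by omega)
        have h2 := (norm_le_pi_norm v i).trans hv
        gcongr
    _ = (d + 1) * ρ * (d * ‖z‖ ^ (d - 1)) := by
        rw [Finset.sum_const, Finset.card_univ, Fintype.card_fin, nsmul_eq_mul]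
        push_cast
        ring

/-- growth outside the disc of radius `2` -/
theorem grow (hd : 2 ≤ d) {c₀ : ℂ} {b : Fin (d + 1) → ℂ} {ρ : ℝ}
    (hρ : (d + 1) * ρ ≤ 1 / 2) (hb : ‖b - ee d c₀‖ ≤ ρ) {y : ℂ} (hy : 2 ≤ ‖y‖) :
    ‖y‖ + (2 - ‖c₀‖ - 4 * ((d + 1) * ρ)) ≤ ‖FF d b y‖ := by
  have h1 := FF_sub_FF b (ee d c₀) y
  rw [FF_ee, f_apply] at h1
  have h2 := norm_pows_of_one_le (b - ee d c₀) (z := y) (by linarith) hb
  have h3 : y ^ d = FF d b y - c₀ - ∑ i : Fin (d + 1), (b - ee d c₀) i * y ^ (i : ℕ) := by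
    rw [← h1]
    ring
  have h4 : ‖y‖ ^ d ≤ ‖FF d b y‖ + ‖c₀‖ + (d + 1) * ρ * ‖y‖ ^ d := by
    calc ‖y‖ ^ d = ‖y ^ d‖ := (norm_pow _ _).symm
      _ = ‖FF d b y - c₀ - ∑ i : Fin (d + 1), (b - ee d c₀) i * y ^ (i : ℕ)‖ := by rw [← h3]
      _ ≤ ‖FF d b y - c₀‖ + ‖∑ i : Fin (d + 1), (b - ee d c₀) i * y ^ (i : ℕ)‖ :=
          norm_sub_le _ _
      _ ≤ (‖FF d b y‖ + ‖c₀‖) + (d + 1) * ρ * ‖y‖ ^ d := add_le_add (norm_sub_le _ _) h2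
      _ = _ := by ring
  have h5 : 2 * ‖y‖ ≤ ‖y‖ ^ d := by
    calc 2 * ‖y‖ ≤ ‖y‖ * ‖y‖ := by gcongr
      _ = ‖y‖ ^ 2 := by ring
      _ ≤ ‖y‖ ^ d := pow_le_pow_right₀ (by linarith) hd
  have h6 : 2 * ‖y‖ * (1 - (d + 1) * ρ) ≤ ‖y‖ ^ d * (1 - (d + 1) * ρ) := by
    have : 0 ≤ 1 - (d + 1) * ρ := by linarith
    gcongr
  have h7 : 2 * (1 - 2 * ((d + 1) * ρ)) ≤ ‖y‖ * (1 - 2 * ((d + 1) * ρ)) := by
    have : 0 ≤ 1 - 2 * ((d + 1) * ρ) := by linarith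
    gcongr
  linarith

theorem iter_grow (hd : 2 ≤ d) {c₀ : ℂ} {b : Fin (d + 1) → ℂ} {ρ η : ℝ}
    (hρ : (d + 1) * ρ ≤ 1 / 2) (hη0 : 0 < η) (hη : η ≤ 2 - ‖c₀‖ - 4 * ((d + 1) * ρ))
    (hb : ‖b - ee d c₀‖ ≤ ρ) {y : ℂ} (hy : 2 ≤ ‖y‖) (k : ℕ) :
    2 + k * η ≤ ‖(FF d b)^[k] y‖ := by
  induction k with
  | zero => simpa using hy
  | succ k ih =>
    rw [Function.iterate_succ_apply']
    have h1 : 2 ≤ ‖(FF d b)^[k] y‖ := by
      have : 0 ≤ k * η := by positivity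
      linarith
    have h2 := grow hd hρ hb h1
    push_cast
    linarith

/-- the escape criterion -/
theorem escape (hd : 2 ≤ d) {c₀ : ℂ} {b : Fin (d + 1) → ℂ} {ρ η : ℝ}
    (hρ : (d + 1) * ρ ≤ 1 / 2) (hη0 : 0 < η) (hη : η ≤ 2 - ‖c₀‖ - 4 * ((d + 1) * ρ))
    (hb : ‖b - ee d c₀‖ ≤ ρ) (z : ℂ) :
    ¬ Tendsto (fun n => ‖(FF d b)^[n] z‖) atTop atTop ↔ ∀ n, ‖(FF d b)^[n] z‖ ≤ 2 := by
  constructor
  · intro h n
    by_contra hn
    push Not at hn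
    apply h
    have h1 : ∀ k : ℕ, 2 + k * η ≤ ‖(FF d b)^[k + n] z‖ := by
      intro k
      rw [Function.iterate_add_apply]
      exact iter_grow hd hρ hη0 hη hb hn.le k
    have h2 : Tendsto (fun k : ℕ => 2 + k * η) atTop atTop :=
      tendsto_atTop_add_const_left _ _ (tendsto_natCast_atTop_atTop.atTop_mul_const hη0)
    exact (tendsto_add_atTop_iff_nat n).1 (tendsto_atTop_mono h1 h2)
  · intro h ht
    obtain ⟨n, hn⟩ := (ht.eventually (eventually_gt_atTop 2)).exists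
    exact absurd (h n) (not_le.2 hn)

/-- the critical points are in the unit disc -/
theorem crit (hd : 2 ≤ d) {c₀ : ℂ} {b : Fin (d + 1) → ℂ} {ρ : ℝ}
    (hρ : (d + 1) * ρ ≤ 1 / 2) (hb : ‖b - ee d c₀‖ ≤ ρ) {z : ℂ} (hz : dF d b z = 0) :
    ‖z‖ ≤ 1 := by
  by_contra hn
  push Not at hn
  have h1 := dF_sub_dF b (ee d c₀) z
  rw [hz, dF_ee, zero_sub] at h1
  have h2 := norm_dpows_of_one_le (b - ee d c₀) (z := z) hn.le hb
  rw [← h1, norm_neg, norm_mul, norm_pow, Complex.norm_natCast] at h2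
  have h3 : (0 : ℝ) < d * ‖z‖ ^ (d - 1) := by
    have : (0 : ℝ) < d := by exact_mod_cast (by omega : 0 < d)
    positivity
  nlinarith

theorem cont_FF : Continuous fun p : (Fin (d + 1) → ℂ) × ℂ => FF d p.1 p.2 := by
  unfold FF
  fun_prop

theorem cont_dF : Continuous fun p : (Fin (d + 1) → ℂ) × ℂ => dF d p.1 p.2 := by
  unfold dF
  fun_prop

theorem cont_iter (n : ℕ) :
    Continuous fun p : (Fin (d + 1) → ℂ) × ℂ => (FF d p.1)^[n] p.2 := by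
  induction n with
  | zero => exact continuous_snd
  | succ n ih =>
    simp only [Function.iterate_succ_apply']
    exact cont_FF.comp (continuous_fst.prodMk ih)

theorem closed_of (hd : 2 ≤ d) {c₀ : ℂ} {ρ η : ℝ}
    (hρ : (d + 1) * ρ ≤ 1 / 2) (hη0 : 0 < η) (hη : η ≤ 2 - ‖c₀‖ - 4 * ((d + 1) * ρ)) :
    IsClosed ({b : Fin (d + 1) → ℂ | ∃ ω, dF d b ω = 0 ∧
      ¬ Tendsto (fun n => ‖(FF d b)^[n] ω‖) atTop atTop} ∩ closedBall (ee d c₀) ρ) := by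
  have h1 : ({b : Fin (d + 1) → ℂ | ∃ ω, dF d b ω = 0 ∧
      ¬ Tendsto (fun n => ‖(FF d b)^[n] ω‖) atTop atTop} ∩ closedBall (ee d c₀) ρ) =
      Prod.fst '' ((closedBall (ee d c₀) ρ ×ˢ closedBall (0 : ℂ) 1) ∩
        ({p : (Fin (d + 1) → ℂ) × ℂ | dF d p.1 p.2 = 0} ∩
          ⋂ n, {p : (Fin (d + 1) → ℂ) × ℂ | ‖(FF d p.1)^[n] p.2‖ ≤ 2})) := by
    ext b
    simp only [mem_inter_iff, mem_ofPred_eq, mem_image, mem_prod, mem_iInter, Prod.exists,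
      exists_and_right, exists_eq_right, mem_closedBall, dist_eq_norm, sub_zero]
    constructor
    · rintro ⟨⟨ω, h2, h3⟩, h4⟩
      exact ⟨ω, ⟨h4, crit hd hρ h4 h2⟩, h2, (escape hd hρ hη0 hη h4 ω).1 h3⟩
    · rintro ⟨ω, ⟨h4, _⟩, h2, h3⟩
      exact ⟨⟨ω, h2, (escape hd hρ hη0 hη h4 ω).2 h3⟩, h4⟩
  rw [h1]
  have h2 : IsCompact (closedBall (ee d c₀) ρ ×ˢ closedBall (0 : ℂ) 1) :=
    (isCompact_closedBall _ _).prod (isCompact_closedBall _ _)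
  refine ((h2.inter_right ?_).image continuous_fst).isClosed
  refine IsClosed.inter (isClosed_eq cont_dF continuous_const) ?_
  exact isClosed_iInter fun n => isClosed_le (cont_iter n).norm continuous_const

theorem t : S_CLO := by
  intro d c₀ hd hc
  have hd1 : (0 : ℝ) < d + 1 := by positivity
  have hc2 : 0 < 2 - ‖c₀‖ := by linarith
  refine ⟨(2 - ‖c₀‖) / 2 / (4 * (d + 1)), by positivity, fun ρ hρ => ?_⟩
  have h1 : ((d : ℝ) + 1) * ρ ≤ (2 - ‖c₀‖) / 8 := by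
    rw [le_div_iff₀ (by positivity)] at hρ
    linarith
  have h2 := norm_nonneg c₀
  exact closed_of hd (by linarith) (η := (2 - ‖c₀‖) / 2) (by linarith) (by linarith)

end Pool.Agent.Y574.GA
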